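import Pool.Agent.HP778.Main

/-!
# Powers `n ^ x` whose exponent is a polynomial or a rational function of `π` and `e`

Let `Prods` be the set of all numbers `e ^ γ α_1 ^ β_1 ⋯ α_k ^ β_k` with algebraic `γ`, `α_i ≠ 0`,
`β_i`; it contains all algebraic numbers except `0`.

(1) If `x` is a transcendental linear form in logarithms, in particular if `x = π`, then the integers
`n ≥ 2` for which SOME number `n ^ (β x + γ)`, with algebraic `β ≠ 0` and `γ`, is in `Prods`, are the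
powers `c, c ^ 2, c ^ 3, ...` of one integer `c ≥ 2`, or there are none.

(2)-(6) Uniform bounds, `Few E r`, for the set of the `a` such that `a ^ x` is in `Prods` for SOME
exponent `x` of a set `E`, where `E` may be: `β x + γ` with a fixed `x`; all transcendental elements of a
space of finite dimension, for example of `1, π, e` (then `r = 5`); all values at `π`, at `e`, or at a
transcendental number, of nonconstant polynomials of degree at most `D`; all transcendental values at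
given numbers of rational functions of degree at most `D`.

The proofs apply the library of the starting files `Pool.Agent.HP778`, i.e. the hyperplane case of the
linear subgroup theorem of Waldschmidt and Roy and Baker's theorem.
-/

set_option autoImplicit false

namespace Pool.Agent.Results.MP_ee2255_nt.ExponentsInPiAndE

open Module Finset
open Pool.Agent.HP778 hiding IsQuot
open Pool.Agent.H301R2.SSE (Lt)

/-- The linear combinations, with algebraic coefficients, of `1` and of logarithms of algebraic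
numbers. -/
noncomputable def LogForms : Submodule (algebraicClosure ℚ ℂ) ℂ :=
  Submodule.span (algebraicClosure ℚ ℂ) ({1} ∪ {z : ℂ | IsAlgebraic ℚ (Complex.exp z)})

/-- The numbers `e ^ z` with `z` in `LogForms`, i.e. the numbers `e ^ γ α_1 ^ β_1 ⋯ α_k ^ β_k` with
algebraic `γ`, `α_i ≠ 0`, `β_i`. -/
def Prods : Set ℂ := {x | ∃ z ∈ LogForms, Complex.exp z = x}

/-- The integers `n ≥ 2` such that `n ^ x` is in `Prods` for SOME exponent `x` of the set `E`. -/
def Bad (E : Set ℂ) : Set ℕ := {n | 2 ≤ n ∧ ∃ x ∈ E, (n : ℂ) ^ x ∈ Prods}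

/-- For all but few bases `a` NO power `a ^ x` with exponent `x` in `E` is in `Prods`: if
`a_1, ..., a_m` are multiplicatively independent positive real algebraic numbers each of which has a
power in `Prods` with an exponent in `E`, then `m ≤ r`; in particular at most `r` primes are in `Bad E`;
and at most `(log₂ N + 1) ^ r` integers `n` with `2 ≤ n ≤ N` are in `Bad E`. -/
def Few (E : Set ℂ) (r : ℕ) : Prop :=
  (∀ (m : ℕ) (a : Fin m → ℝ), (∀ i, 0 < a i) → (∀ i, IsAlgebraic ℚ (a i)) →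
    (∀ c : Fin m → ℤ, ∏ i, a i ^ c i = 1 → c = 0) →
    (∀ i, ∃ x ∈ E, ((a i : ℝ) : ℂ) ^ x ∈ Prods) → m ≤ r) ∧
  (Bad E ∩ {p | p.Prime}).encard ≤ r ∧
  ∀ N : ℕ, (Bad E ∩ Set.Icc 2 N).ncard ≤ (Nat.log 2 N + 1) ^ r

/-- the exponents `β x + γ` with algebraic `β ≠ 0` and algebraic `γ` -/
def affine (x : ℂ) : Set ℂ :=
  {y | ∃ β γ : ℂ, IsAlgebraic ℚ β ∧ β ≠ 0 ∧ IsAlgebraic ℚ γ ∧ y = β * x + γ}

/-- the transcendental numbers `β π + γ e + δ` with algebraic `β`, `γ`, `δ` -/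
def piE : Set ℂ :=
  {y | Transcendental ℚ y ∧ ∃ β γ δ : ℂ, IsAlgebraic ℚ β ∧ IsAlgebraic ℚ γ ∧ IsAlgebraic ℚ δ ∧
    y = β * Real.pi + γ * Complex.exp 1 + δ}

/-- the values at `x` of the polynomials of degree at least `1` and at most `D` with algebraic
coefficients -/
def polys (x : ℂ) (D : ℕ) : Set ℂ :=
  {y | ∃ P : Polynomial (algebraicClosure ℚ ℂ), 1 ≤ P.natDegree ∧ P.natDegree ≤ D ∧
    y = Polynomial.aeval x P}

/-- the transcendental numbers `P(t) / Q(t)` with polynomials `P`, `Q` with algebraic coefficients and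
of degree at most `D` in each of the `r` variables -/
def rats {r : ℕ} (t : Fin r → ℂ) (D : ℕ) : Set ℂ :=
  {y | Transcendental ℚ y ∧ ∃ P Q : MvPolynomial (Fin r) (algebraicClosure ℚ ℂ),
    (∀ i, P.degreeOf i ≤ D) ∧ (∀ i, Q.degreeOf i ≤ D) ∧ MvPolynomial.aeval t Q ≠ 0 ∧
    y = MvPolynomial.aeval t P / MvPolynomial.aeval t Q}

theorem pi_tr : Transcendental ℚ ((Real.pi : ℝ) : ℂ) :=
  ofReal_transcendental Pool.Agent.H340R2.LW.transcendental_pi

theorem e_tr : Transcendental ℚ (Complex.exp 1) :=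
  Pool.Agent.H340R2.LW.transcendental_exp_one_complex

theorem ofReal_cpow' {a : ℝ} (ha : 0 < a) (x : ℂ) :
    (a : ℂ) ^ x = Complex.exp (x * ((Real.log a : ℝ) : ℂ)) := by
  rw [Complex.cpow_def_of_ne_zero (by exact_mod_cast ha.ne'), Complex.ofReal_log ha.le, mul_comm]

theorem mem_real {a : ℝ} (ha : 0 < a) {x : ℂ} (h : (a : ℂ) ^ x ∈ Prods) :
    x * ((Real.log a : ℝ) : ℂ) ∈ Lt := by
  obtain ⟨z, hz, hze⟩ := h
  rw [ofReal_cpow' ha] at hze
  exact mem_of_exp hz hze.symm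

theorem mem_nat {n : ℕ} (hn : 1 ≤ n) {x : ℂ} (h : (n : ℂ) ^ x ∈ Prods) :
    x * ((Real.log n : ℝ) : ℂ) ∈ Lt := by
  obtain ⟨z, hz, hze⟩ := h
  rw [natCast_cpow hn] at hze
  exact mem_of_exp hz hze.symm

theorem of_mem_nat {n : ℕ} (hn : 1 ≤ n) {x : ℂ} (h : x * ((Real.log n : ℝ) : ℂ) ∈ Lt) :
    (n : ℂ) ^ x ∈ Prods := ⟨_, h, (natCast_cpow hn x).symm⟩

theorem real_pos_log {r : ℕ} (a : Fin r → ℝ) (ha : ∀ i, 0 < a i)
    (hm : ∀ c : Fin r → ℤ, ∏ i, a i ^ c i = 1 → c = 0) :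
    LinearIndependent ℚ (fun i => ((Real.log (a i) : ℝ) : ℂ)) := by
  rw [← LinearIndependent.iff_fractionRing ℤ ℚ, Fintype.linearIndependent_iff]
  intro c hc
  have hc' : ∑ i, (c i : ℝ) * Real.log (a i) = 0 := by
    have h : ((∑ i, (c i : ℝ) * Real.log (a i) : ℝ) : ℂ) = 0 := by
      rw [← hc]
      push_cast
      refine Finset.sum_congr rfl fun i _ => ?_
      rw [zsmul_eq_mul]
    exact_mod_cast h
  have h1 : ∏ i, a i ^ c i = 1 := by
    have h2 : Real.log (∏ i, a i ^ c i) = 0 := by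
      rw [Real.log_prod (fun i _ => (zpow_pos (ha i) _).ne'), ← hc']
      refine Finset.sum_congr rfl fun i _ => ?_
      rw [Real.log_zpow]
    have h3 : 0 < ∏ i, a i ^ c i := Finset.prod_pos fun i _ => zpow_pos (ha i) _
    rcases Real.log_eq_zero.1 h2 with h | h | h
    · exact absurd h h3.ne'
    · exact h
    · rw [h] at h3; linarith
  exact congrFun (hm c h1)

/-- bounds for the number of independent logarithms give `Few` -/
theorem few_of {E : Set ℂ} {r : ℕ}
    (h : ∀ (m : ℕ) (l : Fin m → ℂ), (∀ i, IsAlgebraic ℚ (Complex.exp (l i))) →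
      LinearIndependent ℚ l → (∀ i, ∃ x ∈ E, x * l i ∈ Lt) → m ≤ r) : Few E r := by
  classical
  refine ⟨fun m a ha halg hm hE => ?_, ?_, fun N => ?_⟩
  · refine h m (fun i => ((Real.log (a i) : ℝ) : ℂ)) (fun i => ?_) (real_pos_log a ha hm)
      fun i => ?_
    · rw [← Complex.ofReal_exp, Real.exp_log (ha i)]
      exact (halg i).algebraMap (A := ℂ)
    · obtain ⟨x, hx, hxp⟩ := hE i
      exact ⟨x, hx, mem_real (ha i) hxp⟩
  · by_contra hlt
    rw [not_le] at hlt
    have h1 : ((r + 1 : ℕ) : ℕ∞) ≤ (Bad E ∩ {p | p.Prime}).encard := by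
      have := Order.add_one_le_of_lt hlt
      exact_mod_cast this
    obtain ⟨t, ht, htc⟩ := Set.exists_subset_encard_eq h1
    have hfin : t.Finite := Set.finite_of_encard_eq_coe htc
    have hcard : hfin.toFinset.card = r + 1 := by
      rw [hfin.encard_eq_coe_toFinset_card] at htc
      exact_mod_cast htc
    let e := hfin.toFinset.equivFinOfCardEq hcard
    have hmem : ∀ i, ((e.symm i : hfin.toFinset) : ℕ) ∈ Bad E ∩ {p | p.Prime} := fun i =>
      ht (hfin.mem_toFinset.mp (e.symm i).2)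
    have h2 := h (r + 1) (fun i => ((Real.log ((e.symm i : hfin.toFinset) : ℕ) : ℝ) : ℂ))
      (fun i => exp_log_alg (by have := (hmem i).1.1; omega)) ?_ fun i => ?_
    · omega
    · exact Pool.Agent.W254.HP.log_primes_indep.comp
        (fun i : Fin (r + 1) => (⟨((e.symm i : hfin.toFinset) : ℕ), (hmem i).2⟩ : Nat.Primes))
        (fun i j hij => e.symm.injective
          (Subtype.ext (congrArg (fun p : Nat.Primes => (p : ℕ)) hij)))
    · obtain ⟨h2, x, hx, hxp⟩ := (hmem i).1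
      exact ⟨x, hx, mem_nat (by omega) hxp⟩
  · have h1 := count_of (N := N) (r := r) (fun n => n ∈ Bad E) (by
      intro m n hn halg hli
      refine h m _ halg hli fun i => ?_
      obtain ⟨h2, x, hx, hxp⟩ := (hn i).2
      exact ⟨x, hx, mem_nat (hn i).1 hxp⟩)
    refine le_trans ?_ h1
    rw [← Set.ncard_coe_finset]
    refine Set.ncard_le_ncard ?_ (Finset.finite_toSet _)
    rintro n ⟨hn, hn2, hnN⟩
    rw [Finset.mem_coe, Finset.mem_filter, Finset.mem_Icc]
    exact ⟨⟨by omega, hnN⟩, hn⟩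

theorem few_mono {E E' : Set ℂ} {r r' : ℕ} (hE : E ⊆ E') (hr : r' ≤ r) (h : Few E' r') :
    Few E r := by
  have hB : Bad E ⊆ Bad E' := fun n hn => by
    obtain ⟨h2, x, hx, hxp⟩ := hn
    exact ⟨h2, x, hE hx, hxp⟩
  obtain ⟨h1, h2, h3⟩ := h
  refine ⟨fun m a ha halg hm hx => (h1 m a ha halg hm fun i => ?_).trans hr, ?_, fun N => ?_⟩
  · obtain ⟨x, hx, hxp⟩ := hx i
    exact ⟨x, hE hx, hxp⟩
  · exact (Set.encard_le_encard (Set.inter_subset_inter_left _ hB)).trans
      (h2.trans (by exact_mod_cast hr))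
  · refine ((Set.ncard_le_ncard (Set.inter_subset_inter_left _ hB)
      ((Set.finite_Icc 2 N).inter_of_right _)).trans (h3 N)).trans ?_
    exact Nat.pow_le_pow_right (by omega) hr

/-- `β x + γ` is the value of a polynomial of degree one -/
theorem affine_poly {x y : ℂ} (h : y ∈ affine x) : ∃ P : Polynomial (algebraicClosure ℚ ℂ),
    1 ≤ P.natDegree ∧ P.natDegree ≤ 1 ∧ y = Polynomial.aeval x P := by
  obtain ⟨β, γ, hβ, hβ0, hγ, rfl⟩ := h
  let b : algebraicClosure ℚ ℂ := ⟨β, mem_algebraicClosure_iff.2 hβ⟩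
  let c : algebraicClosure ℚ ℂ := ⟨γ, mem_algebraicClosure_iff.2 hγ⟩
  have hb : b ≠ 0 := fun h => hβ0 (congrArg Subtype.val h)
  refine ⟨Polynomial.C b * Polynomial.X + Polynomial.C c, ?_, ?_, ?_⟩
  · rw [Polynomial.natDegree_linear hb]
  · rw [Polynomial.natDegree_linear hb]
  · rw [map_add, map_mul, Polynomial.aeval_C, Polynomial.aeval_C, Polynomial.aeval_X]
    rfl

theorem pow_mem {E : Set ℂ} {n k : ℕ} (hn : n ∈ Bad E) (hk : 1 ≤ k) : n ^ k ∈ Bad E := by
  obtain ⟨h2, x, hx, hxp⟩ := hn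
  refine ⟨h2.trans (Nat.le_self_pow (by omega) n), x, hx, of_mem_nat (Nat.one_le_pow _ _ (by omega)) ?_⟩
  have h1 := mem_nat (by omega) hxp
  have h3 : x * ((Real.log ((n ^ k : ℕ) : ℝ) : ℝ) : ℂ) = k * (x * ((Real.log n : ℝ) : ℂ)) := by
    rw [Nat.cast_pow, Real.log_pow]
    push_cast
    ring
  rw [h3]
  exact Pool.Agent.H301R2.SSE.Lt_mul (isAlgebraic_natCast k) h1

theorem root_mem {E : Set ℂ} {n k : ℕ} (hk : 1 ≤ k) (hn : n ^ k ∈ Bad E) : n ∈ Bad E := by
  obtain ⟨h2, x, hx, hxp⟩ := hn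
  have hn2 : 2 ≤ n := by
    by_contra hlt
    have : n ^ k ≤ 1 := by
      have h3 : n ≤ 1 := by omega
      calc n ^ k ≤ 1 ^ k := Nat.pow_le_pow_left h3 k
        _ = 1 := one_pow k
    omega
  refine ⟨hn2, x, hx, of_mem_nat (by omega) ?_⟩
  have h1 := mem_nat (by omega) hxp
  have hk0 : (k : ℂ) ≠ 0 := by exact_mod_cast (by omega : k ≠ 0)
  have h3 : x * ((Real.log (n : ℝ) : ℝ) : ℂ) =
      (k : ℂ)⁻¹ * (x * ((Real.log ((n ^ k : ℕ) : ℝ) : ℝ) : ℂ)) := by
    rw [Nat.cast_pow, Real.log_pow]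
    push_cast
    field_simp
  rw [h3]
  exact Pool.Agent.H301R2.SSE.Lt_mul (isAlgebraic_natCast k).inv h1

/-- multiplicatively dependent integers are powers of one integer -/
theorem common_root {E : Set ℂ} (hdep : ∀ a ∈ Bad E, ∀ b ∈ Bad E, ∃ u v : ℕ, (u ≠ 0 ∨ v ≠ 0) ∧
      a ^ u = b ^ v) :
    Bad E = ∅ ∨ ∃ c : ℕ, 2 ≤ c ∧ Bad E = {n | ∃ k : ℕ, 1 ≤ k ∧ n = c ^ k} := by
  classical
  rcases (Bad E).eq_empty_or_nonempty with h0 | hne
  · exact Or.inl h0
  right
  have hex : ∃ n, n ∈ Bad E := hne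
  let c := Nat.find hex
  have hc : c ∈ Bad E := Nat.find_spec hex
  have hmin : ∀ n ∈ Bad E, c ≤ n := fun n hn => Nat.find_min' hex hn
  refine ⟨c, hc.1, Set.Subset.antisymm ?_ ?_⟩
  · intro n hn
    obtain ⟨u, v, huv, he⟩ := hdep n hn c hc
    obtain ⟨d, hd1, hd2⟩ := Nat.exists_eq_pow_of_pow_eq_pow huv he
    have hk1 : 1 ≤ v / Nat.gcd u v := by
      rcases Nat.eq_zero_or_pos (v / Nat.gcd u v) with h | h
      · rw [h, pow_zero] at hd1
        have := hn.1
        omega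
      · exact h
    have hk2 : 1 ≤ u / Nat.gcd u v := by
      rcases Nat.eq_zero_or_pos (u / Nat.gcd u v) with h | h
      · rw [h, pow_zero] at hd2
        have := hc.1
        omega
      · exact h
    have hdB : d ∈ Bad E := root_mem hk1 (hd1 ▸ hn)
    have hcd : d ≤ c := by
      rw [hd2]
      exact Nat.le_self_pow (by omega) d
    have : d = c := le_antisymm hcd (hmin d hdB)
    exact ⟨_, hk1, by rw [← this]; exact hd1⟩
  · rintro n ⟨k, hk, rfl⟩
    exact pow_mem hc hk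

/-- two integers with rationally dependent logarithms -/
theorem dep_of {a b : ℕ} (ha : 2 ≤ a) (hb : 2 ≤ b)
    (h : ¬ LinearIndependent ℚ ![((Real.log a : ℝ) : ℂ), ((Real.log b : ℝ) : ℂ)]) :
    ∃ u v : ℕ, (u ≠ 0 ∨ v ≠ 0) ∧ a ^ u = b ^ v := by
  rw [← LinearIndependent.iff_fractionRing ℤ ℚ, LinearIndependent.pair_iff] at h
  push Not at h
  obtain ⟨s, t, hst, hne⟩ := h
  have hR : (s : ℝ) * Real.log a + t * Real.log b = 0 := by
    have h1 : (((s : ℝ) * Real.log a + t * Real.log b : ℝ) : ℂ) = 0 := by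
      rw [← hst]
      push_cast
      rw [zsmul_eq_mul, zsmul_eq_mul]
    exact_mod_cast h1
  have hla : 0 < Real.log a := Real.log_pos (by exact_mod_cast ha)
  have hlb : 0 < Real.log b := Real.log_pos (by exact_mod_cast hb)
  have key : (s.natAbs : ℝ) * Real.log a = t.natAbs * Real.log b := by
    have h2 : |(s : ℝ) * Real.log a| = |(t : ℝ) * Real.log b| := by
      have : (s : ℝ) * Real.log a = -(t * Real.log b) := by linarith
      rw [this, abs_neg]
    rw [abs_mul, abs_mul, abs_of_pos hla, abs_of_pos hlb] at h2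
    rw [Nat.cast_natAbs, Nat.cast_natAbs]
    push_cast
    exact h2
  refine ⟨s.natAbs, t.natAbs, ?_, ?_⟩
  · by_cases hs : s = 0
    · right
      simpa using hne hs
    · left
      simpa using hs
  · have h3 : Real.log ((a ^ s.natAbs : ℕ) : ℝ) = Real.log ((b ^ t.natAbs : ℕ) : ℝ) := by
      push_cast
      rw [Real.log_pow, Real.log_pow]
      exact key
    have h4 := Real.log_injOn_pos (Set.mem_Ioi.mpr (by exact_mod_cast Nat.pow_pos (by omega)))
      (Set.mem_Ioi.mpr (by exact_mod_cast Nat.pow_pos (by omega))) h3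
    exact_mod_cast h4

/-- part (1) -/
theorem part1 {x : ℂ} (hx : x ∈ LogForms) (hxt : Transcendental ℚ x) :
    Bad (affine x) = ∅ ∨
      ∃ c : ℕ, 2 ≤ c ∧ Bad (affine x) = {n | ∃ k : ℕ, 1 ≤ k ∧ n = c ^ k} := by
  refine common_root fun a ha b hb => dep_of ha.1 hb.1 fun hli => ?_
  have h := logs_poly' (D := 1) hxt hx le_rfl _ ?_ hli ?_
  · omega
  · intro i
    fin_cases i
    · exact exp_log_alg (by have := ha.1; omega)
    · exact exp_log_alg (by have := hb.1; omega)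
  · intro i
    fin_cases i
    · obtain ⟨h2, y, hy, hyp⟩ := ha
      obtain ⟨P, h1, h3, rfl⟩ := affine_poly hy
      exact ⟨P, h1, h3, mem_nat (by omega) hyp⟩
    · obtain ⟨h2, y, hy, hyp⟩ := hb
      obtain ⟨P, h1, h3, rfl⟩ := affine_poly hy
      exact ⟨P, h1, h3, mem_nat (by omega) hyp⟩

/-- `n ^ x` for real `x`: membership in `Bad {x}` -/
theorem bad_of_rat {x : ℝ} {n : ℕ} (hn : 2 ≤ n) (h : ∃ q : ℚ, (n : ℝ) ^ x = q) :
    n ∈ Bad {(x : ℂ)} := by
  obtain ⟨q, hq⟩ := h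
  have hpos : (0 : ℝ) < (n : ℝ) ^ x := Real.rpow_pos_of_pos (by exact_mod_cast (by omega : 0 < n)) x
  refine ⟨hn, (x : ℂ), rfl, ?_⟩
  have h1 : (n : ℂ) ^ (x : ℂ) = ((q : ℝ) : ℂ) := by
    rw [← hq, Complex.ofReal_cpow (by positivity)]
    simp
  refine ⟨Complex.log ((n : ℂ) ^ (x : ℂ)), Submodule.subset_span (Or.inr ?_), Complex.exp_log ?_⟩
  · change IsAlgebraic ℚ (Complex.exp (Complex.log _))
    rw [Complex.exp_log]
    · rw [h1]
      exact_mod_cast isAlgebraic_algebraMap (R := ℚ) (A := ℂ) q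
    · rw [h1, ← hq]
      exact_mod_cast hpos.ne'
  · rw [h1, ← hq]
    exact_mod_cast hpos.ne'

/-- part (0) -/
theorem part0 {x : ℝ} (hx : (x : ℂ) ∈ LogForms) (hxt : Transcendental ℚ (x : ℂ)) :
    {n : ℕ | 2 ≤ n ∧ ∃ q : ℚ, (n : ℝ) ^ x = q} = ∅ ∨
      ∃ c : ℕ, 2 ≤ c ∧ {n : ℕ | 2 ≤ n ∧ ∃ q : ℚ, (n : ℝ) ^ x = q} =
        {n | ∃ k : ℕ, 1 ≤ k ∧ n = c ^ k} := by
  classical
  set S : Set ℕ := {n : ℕ | 2 ≤ n ∧ ∃ q : ℚ, (n : ℝ) ^ x = q} with hS
  rcases S.eq_empty_or_nonempty with h0 | hne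
  · exact Or.inl h0
  right
  have hex : ∃ n, n ∈ S := hne
  let c := Nat.find hex
  have hc : c ∈ S := Nat.find_spec hex
  have hmin : ∀ n ∈ S, c ≤ n := fun n hn => Nat.find_min' hex hn
  have hc2 : 2 ≤ c := hc.1
  refine ⟨c, hc2, Set.Subset.antisymm ?_ ?_⟩
  · intro n hn
    have hsub : ∀ m ∈ S, m ∈ Bad (affine x) := fun m hm => by
      obtain ⟨h2, y, hy, hyp⟩ := bad_of_rat hm.1 hm.2
      refine ⟨h2, y, ⟨1, 0, isAlgebraic_one, one_ne_zero, isAlgebraic_zero, ?_⟩, hyp⟩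
      rw [Set.mem_singleton_iff.mp hy]; ring
    rcases part1 hx hxt with h | ⟨b, hb2, hb⟩
    · exact absurd (hsub n hn) (by rw [h]; exact Set.notMem_empty n)
    obtain ⟨i, hi1, hi⟩ := hb ▸ hsub n hn
    obtain ⟨j, hj1, hj⟩ := hb ▸ hsub c hc
    -- `d = b ^ gcd i j`
    have hbpos : (0 : ℝ) < b := by exact_mod_cast (by omega : 0 < b)
    set g := Nat.gcd i j with hg
    have hg1 : 1 ≤ g := Nat.gcd_pos_of_pos_left _ hi1
    have hgi : g ∣ i := Nat.gcd_dvd_left i j
    have hgj : g ∣ j := Nat.gcd_dvd_right i j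
    obtain ⟨q₁, hq₁⟩ := hn.2
    obtain ⟨q₂, hq₂⟩ := hc.2
    have hpow : ∀ k : ℕ, (((b ^ k : ℕ) : ℝ)) ^ x = ((b : ℝ) ^ x) ^ k := fun k => by
      rw [Nat.cast_pow, ← Real.rpow_natCast, ← Real.rpow_mul hbpos.le, mul_comm,
        Real.rpow_mul hbpos.le, Real.rpow_natCast]
    have hB : (0 : ℝ) < (b : ℝ) ^ x := Real.rpow_pos_of_pos hbpos x
    have hd : b ^ g ∈ S := by
      refine ⟨hb2.trans (Nat.le_self_pow (by omega) b), ?_⟩
      rw [hi, hpow] at hq₁
      rw [hj, hpow] at hq₂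
      refine ⟨q₁ ^ (Nat.gcdA i j) * q₂ ^ (Nat.gcdB i j), ?_⟩
      rw [hpow, Rat.cast_mul, Rat.cast_zpow, Rat.cast_zpow, ← hq₁, ← hq₂, ← zpow_natCast, ← zpow_natCast, ← zpow_natCast, ← zpow_mul,
        ← zpow_mul, ← zpow_add₀ hB.ne', hg, Nat.gcd_eq_gcd_ab]
    have hle : b ^ g ≤ c := by
      rw [hj]
      exact Nat.pow_le_pow_right (by omega) (Nat.le_of_dvd (by omega) hgj)
    have heq : b ^ g = c := le_antisymm hle (hmin _ hd)
    refine ⟨i / g, Nat.div_pos (Nat.le_of_dvd (by omega) hgi) hg1, ?_⟩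
    rw [← heq, ← pow_mul, Nat.mul_div_cancel' hgi]
    exact hi
  · rintro n ⟨k, hk, rfl⟩
    obtain ⟨q, hq⟩ := hc.2
    refine ⟨hc2.trans (Nat.le_self_pow (by omega) c), q ^ k, ?_⟩
    push_cast
    rw [← hq, ← Real.rpow_natCast, ← Real.rpow_natCast, ← Real.rpow_mul (by positivity),
      ← Real.rpow_mul (by positivity), mul_comm]

/-- transcendental multipliers are not algebraic constants -/
theorem ne_alg {x : ℂ} (hx : Transcendental ℚ x) (a : algebraicClosure ℚ ℂ) :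
    algebraMap (algebraicClosure ℚ ℂ) ℂ a ≠ x := fun h =>
  hx (h ▸ mem_algebraicClosure_iff.1 a.2)

theorem part4 (T : Submodule (algebraicClosure ℚ ℂ) ℂ) [FiniteDimensional (algebraicClosure ℚ ℂ) T]
    (hT : (1 : ℂ) ∈ T) :
    Few {x | x ∈ T ∧ Transcendental ℚ x}
      (finrank (algebraicClosure ℚ ℂ) T * (finrank (algebraicClosure ℚ ℂ) T - 1)) := by
  refine few_of fun m l halg hli h => ?_
  choose τ hτ hw using h
  have h1 := rank_space hyper_Lt T hT l τ 0 (fun i => (hτ i).1) (fun i => ne_alg (hτ i).2)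
    (indep_QB halg hli) (fun i => Pool.Agent.H301R2.SSE.Lt_log (halg i)) (fun i => by simpa using hw i) ⊥
    (fun i => Submodule.zero_mem _)
  rw [finrank_bot, zero_add] at h1
  exact h1

theorem part4' (T : Submodule (algebraicClosure ℚ ℂ) ℂ) [FiniteDimensional (algebraicClosure ℚ ℂ) T]
    (hT : (1 : ℂ) ∈ T) {t : ℂ} (htT : t ∈ T) (htL : t ∈ LogForms) (ht : Transcendental ℚ t) :
    Few {x | x ∈ T ∧ Transcendental ℚ x}
      (finrank (algebraicClosure ℚ ℂ) T * (finrank (algebraicClosure ℚ ℂ) T - 1) - 1) := by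
  refine few_of fun m l halg hli h => ?_
  have h1 := logs_space' T hT htT ht htL l halg hli (fun i => by
    obtain ⟨x, hx, hxl⟩ := h i
    exact ⟨x, hx.1, hx.2, hxl⟩)
  exact Nat.le_sub_of_add_le h1

/-- **Main result.**

(0) The set of the integers `n ≥ 2` with `n ^ π` rational is empty or `{c, c ^ 2, c ^ 3, ...}` for one
integer `c ≥ 2`. (1) The same for the set of the `n ≥ 2` such that `n ^ (β π + γ)` is in `Prods` for some
algebraic `β ≠ 0` and `γ`, and more generally with a transcendental linear form in logarithms `x` for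
`π`. (2) For each transcendental `x`, in particular for `e`: `Few` for the exponents `β x + γ`, `r = 2`.
(3) All but at most five primes `p` have the following property: for all algebraic `β`, `γ`, `δ` with
`β π + γ e + δ` transcendental, `p ^ (β π + γ e + δ)` is not in `Prods`, in particular transcendental.
(4) The same for the transcendental elements of a space of dimension `d` which contains `1`, with
`d (d - 1)` primes, or `d (d - 1) - 1` if the space contains a transcendental linear form in logarithms.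
(5) The exponents `P(π)` with `P` nonconstant of degree at most `D`: `r = 4 D - 3`; `P(e)`, or `P(x)` with
a transcendental `x`: `r = 4 D - 2`. (6) The exponents `P(π, e) / Q(π, e)`: `r = 32 D ^ 2 - 9`, and
`2 ((4 D) ^ r - 2 ^ r)` for rational functions of any `r` numbers. (7) All nonzero algebraic numbers are
in `Prods`. -/
theorem result :
    -- (0) rational powers with exponent `π`
    ({n : ℕ | 2 ≤ n ∧ ∃ q : ℚ, (n : ℝ) ^ Real.pi = q} = ∅ ∨
      ∃ c : ℕ, 2 ≤ c ∧ {n : ℕ | 2 ≤ n ∧ ∃ q : ℚ, (n : ℝ) ^ Real.pi = q} =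
        {n | ∃ k : ℕ, 1 ≤ k ∧ n = c ^ k}) ∧
    -- (1) the exponents `β π + γ`
    (((Real.pi : ℝ) : ℂ) ∈ LogForms ∧ ∀ x ∈ LogForms, Transcendental ℚ x →
      Bad (affine x) = ∅ ∨
        ∃ c : ℕ, 2 ≤ c ∧ Bad (affine x) = {n | ∃ k : ℕ, 1 ≤ k ∧ n = c ^ k}) ∧
    -- (2) the exponents `β e + γ`
    (∀ x : ℂ, Transcendental ℚ x → Few (affine x) 2) ∧
    -- (3) the exponents `β π + γ e + δ`
    Few piE 5 ∧
    -- (4) the transcendental elements of a space of dimension `d`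
    (∀ (T : Submodule (algebraicClosure ℚ ℂ) ℂ) (d : ℕ),
      FiniteDimensional (algebraicClosure ℚ ℂ) T → finrank (algebraicClosure ℚ ℂ) T = d →
      (1 : ℂ) ∈ T → Few {x | x ∈ T ∧ Transcendental ℚ x} (d * (d - 1)) ∧
        ((∃ t ∈ T, t ∈ LogForms ∧ Transcendental ℚ t) →
          Few {x | x ∈ T ∧ Transcendental ℚ x} (d * (d - 1) - 1))) ∧
    -- (5) polynomials in `π`, in `e`, in any transcendental number
    (∀ D : ℕ, 1 ≤ D → Few (polys Real.pi D) (4 * D - 3) ∧
      ∀ x : ℂ, Transcendental ℚ x → Few (polys x D) (4 * D - 2)) ∧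
    -- (6) rational functions of `π` and `e`, or of any numbers
    (∀ D : ℕ, 1 ≤ D → Few (rats ![((Real.pi : ℝ) : ℂ), Complex.exp 1] D) (32 * D ^ 2 - 9) ∧
      ∀ (r : ℕ) (t : Fin r → ℂ), Few (rats t D) (2 * ((4 * D) ^ r - 2 ^ r))) ∧
    -- (7) algebraic numbers
    (∀ x : ℂ, x ≠ 0 → IsAlgebraic ℚ x → x ∈ Prods) := by
  classical
  refine ⟨part0 pi_mem_Lt pi_tr, ⟨pi_mem_Lt, fun x hx hxt => part1 hx hxt⟩, fun x hx => ?_, ?_,
    fun T d hfd hd hT => ?_, fun D hD => ⟨?_, fun x hx => ?_⟩, fun D hD => ⟨?_, fun r t => ?_⟩,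
    fun x hx0 hx => ?_⟩
  · refine few_of fun m l halg hli h => ?_
    have h1 := logs_poly (D := 1) hx le_rfl l halg hli (fun i => by
      obtain ⟨y, hy, hyl⟩ := h i
      obtain ⟨P, h1, h2, rfl⟩ := affine_poly hy
      exact ⟨P, h1, h2, hyl⟩)
    omega
  · -- `1, π, e`
    let T : Submodule (algebraicClosure ℚ ℂ) ℂ :=
      Submodule.span _ (Set.range ![(1 : ℂ), ((Real.pi : ℝ) : ℂ), Complex.exp 1])
    have hfd : FiniteDimensional (algebraicClosure ℚ ℂ) T :=
      FiniteDimensional.span_of_finite _ (Set.finite_range _)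
    have hmem : ∀ i, (![(1 : ℂ), ((Real.pi : ℝ) : ℂ), Complex.exp 1] : Fin 3 → ℂ) i ∈ T :=
      fun i => Submodule.subset_span ⟨i, rfl⟩
    have hle : finrank (algebraicClosure ℚ ℂ) T ≤ 3 := by
      have := finrank_range_le_card (R := algebraicClosure ℚ ℂ)
        ![(1 : ℂ), ((Real.pi : ℝ) : ℂ), Complex.exp 1]
      rw [Fintype.card_fin] at this
      exact this
    refine few_mono (E' := {x | x ∈ T ∧ Transcendental ℚ x}) ?_ ?_
      (part4' T (hmem 0) (hmem 1) pi_mem_Lt pi_tr)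
    · rintro y ⟨hy, β, γ, δ, hβ, hγ, hδ, rfl⟩
      refine ⟨T.add_mem (T.add_mem ?_ ?_) ?_, hy⟩
      · exact T.smul_mem (⟨β, mem_algebraicClosure_iff.2 hβ⟩ : algebraicClosure ℚ ℂ) (hmem 1)
      · exact T.smul_mem (⟨γ, mem_algebraicClosure_iff.2 hγ⟩ : algebraicClosure ℚ ℂ) (hmem 2)
      · have := T.smul_mem (⟨δ, mem_algebraicClosure_iff.2 hδ⟩ : algebraicClosure ℚ ℂ) (hmem 0)
        rw [Algebra.smul_def] at this
        have h1 : algebraMap (algebraicClosure ℚ ℂ) ℂ ⟨δ, mem_algebraicClosure_iff.2 hδ⟩ *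
          (![(1 : ℂ), ((Real.pi : ℝ) : ℂ), Complex.exp 1] : Fin 3 → ℂ) 0 = δ := mul_one _
        rwa [h1] at this
    · have h1 : finrank (algebraicClosure ℚ ℂ) T * (finrank (algebraicClosure ℚ ℂ) T - 1) ≤
        3 * (3 - 1) := Nat.mul_le_mul hle (by omega)
      omega
  · subst hd
    exact ⟨part4 T hT, fun ⟨t, htT, htL, ht⟩ => part4' T hT htT htL ht⟩
  · refine few_of fun m l halg hli h => ?_
    exact logs_poly' pi_tr pi_mem_Lt hD l halg hli (fun i => by
      obtain ⟨y, ⟨P, h1, h2, rfl⟩, hyl⟩ := h i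
      exact ⟨P, h1, h2, hyl⟩)
  · refine few_of fun m l halg hli h => ?_
    exact logs_poly hx hD l halg hli (fun i => by
      obtain ⟨y, ⟨P, h1, h2, rfl⟩, hyl⟩ := h i
      exact ⟨P, h1, h2, hyl⟩)
  · refine few_of fun m l halg hli h => ?_
    have h1 := (logs_ratio' ![((Real.pi : ℝ) : ℂ), Complex.exp 1] 0 hD 0 pi_tr pi_mem_Lt l halg hli
      (fun i => by
        obtain ⟨y, ⟨hy, P, Q, hP, hQ, hQ0, he⟩, hyl⟩ := h i
        exact ⟨y, 0, ⟨P, Q, 0, hP, hQ, fun i => by simp, hQ0, he, by simp⟩, hy, by simpa using hyl⟩)).2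
      rfl
    have h2 : 2 * ((4 * D) ^ 2 - 2 ^ 2) - 1 = 32 * D ^ 2 - 9 := by
      have h3 : (4 * D) ^ 2 = 16 * D ^ 2 := by ring
      rw [h3]
      omega
    exact h1.trans (le_of_eq h2)
  · refine few_of fun m l halg hli h => ?_
    exact (logs_ratio t 0 hD l halg hli
      (fun i => by
        obtain ⟨y, ⟨hy, P, Q, hP, hQ, hQ0, he⟩, hyl⟩ := h i
        exact ⟨y, 0, ⟨P, Q, 0, hP, hQ, fun i => by simp, hQ0, he, by simp⟩, hy, by simpa using hyl⟩)).2
      rfl
  · refine ⟨Complex.log x, ?_, Complex.exp_log hx0⟩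
    refine Submodule.subset_span (Or.inr ?_)
    change IsAlgebraic ℚ (Complex.exp (Complex.log x))
    rwa [Complex.exp_log hx0]

end Pool.Agent.Results.MP_ee2255_nt.ExponentsInPiAndE
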