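import Pool.Agent.Run7.h119.RX.RandR
import Pool.Agent.H340R2.LW

/-!
# The powers `n ^ {P(π)}` and `n ^ {P(e)}` for random polynomials `P`, uniformly in `n`

The numbers `n ^ π` and `n ^ e` are the members `P = X` of the families `n ^ {P(π)}` and `n ^ {P(e)}`.  We take
polynomials whose coefficients are independent random real algebraic numbers: `P = ∑ ξ_j X^j`, where no
`ξ_j` takes any value with probability larger than `p`, `p < 1`, for instance independent random signs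
(`p = 1/2`) or random integers in `[-M, M]` (`p = 1/(2M+1)`).  Let `F` be a space of complex numbers of finite
dimension `N` over the field of algebraic numbers.

**Theorem.** (1) For random polynomials of degree at most `D` the probability that one of the numbers
`e^f n^{P(π)}`, `e^f n^{P(e)}`, `2 ≤ n ≤ M`, `f ∈ F`, is algebraic is at most `2 M p ^ (D - 2 √D - N)`.  The same is true
with `|B| p ^ (D - 2 √D - N)` for the numbers `e^f a^{P(t)}`, where the pairs `(a, t)` are in any finite set `B` of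
pairs of a positive real number `a ≠ 1` and a real transcendental number `t`.

(2) Let `ξ_0, ξ_1, …` be an infinite sequence of such coefficients, `P_D = ∑_{j ≤ D} ξ_j X^j`, and let
`κ < log (1/p)`.  Almost surely, for all large `D`, all the numbers `n^{P_D(π)}` and `n^{P_D(e)}`, `2 ≤ n ≤ e^{κ D}`, are
transcendental, and so are all `e^f n^{P_D(π)}`, `e^f n^{P_D(e)}`, `f ∈ F`.  The same is true for the numbers
`e^f a^{P_D(t)}`, where the pairs `(a, t)` are in given finite sets `B_D` with at most `C e^{κ D}` elements.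

(3) For random polynomials `P` in two variables of degree less than `D` in each variable the probability that one
of the numbers `e^f n^{P(π, e)}`, `2 ≤ n ≤ M`, `f ∈ F`, is algebraic is at most `M p ^ (H - 17 √H - N)`, where `H` is the
dimension over the algebraic numbers of the space of the values at `(π, e)` of the polynomials of degree less
than `D` in each variable with algebraic coefficients; `D ≤ H ≤ D²`.

The result `ExponentsInPiAndE` of this page (helper335) says that for given `P` only few (multiplicatively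
independent) bases `n` can have an algebraic power; here all bases in a long interval are treated, for almost
all `P`.
-/

set_option autoImplicit false

noncomputable section

namespace Pool.Agent.Results.MP_ee2255_nt.RandomExponents

open MeasureTheory ProbabilityTheory Filter Finset

/-- The field of algebraic numbers. -/
abbrev Qbar : IntermediateField ℚ ℂ := algebraicClosure ℚ ℂ

/-- The dimension of the space of the values at `(t_1, …, t_n)` of the polynomials with algebraic coefficients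
of degree less than `D` in each variable. -/
def dimV {n : ℕ} (t : Fin n → ℂ) (D : ℕ) : ℕ :=
  Module.finrank Qbar (Submodule.span Qbar
    (Set.range fun e : Fin n → Fin D => ∏ i, t i ^ (e i : ℕ)))

/-- The `ξ_i` are independent random real numbers, they are algebraic, and none of them takes any value with a
probability larger than `p`.  The index `i` runs through a finite or infinite set. -/
structure Coefficients {Ω : Type} [MeasurableSpace Ω] (μ : Measure Ω) {ι : Type} (ξ : ι → Ω → ℝ)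
    (p : ℝ) : Prop where
  measurable : ∀ i, Measurable (ξ i)
  independent : iIndepFun ξ μ
  algebraic : ∀ i ω, IsAlgebraic ℚ (ξ i ω)
  atoms : ∀ i x, μ.real {ω | ξ i ω = x} ≤ p

/-- One of the numbers `e^f a^x`, `f` in `F`, is algebraic. -/
def SomeAlgebraic (F : Submodule Qbar ℂ) (a x : ℝ) : Prop :=
  ∃ f ∈ F, IsAlgebraic ℚ (Complex.exp f * ((a ^ x : ℝ) : ℂ))

/-- Statement (1). -/
def Probability : Prop :=
  ∀ (F : Submodule Qbar ℂ), Module.Finite Qbar F →
    ∀ (D : ℕ) (Ω : Type) (_ : MeasurableSpace Ω) (μ : Measure Ω), IsProbabilityMeasure μ →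
      ∀ (p : ℝ) (ξ : Fin (D + 1) → Ω → ℝ), 0 < p → p ≤ 1 → Coefficients μ ξ p →
        (∀ M : ℕ, μ.real {ω | ∃ n : ℕ, 2 ≤ n ∧ n ≤ M ∧
          (SomeAlgebraic F n (∑ j, ξ j ω * Real.pi ^ (j : ℕ)) ∨
            SomeAlgebraic F n (∑ j, ξ j ω * Real.exp 1 ^ (j : ℕ)))} ≤
          2 * M * p ^ ((D : ℝ) - 2 * √(D : ℝ) - Module.finrank Qbar F)) ∧
        ∀ B : Finset (ℝ × ℝ), (∀ b ∈ B, 0 < b.1 ∧ b.1 ≠ 1 ∧ Transcendental ℚ b.2) →
          μ.real {ω | ∃ b ∈ B, SomeAlgebraic F b.1 (∑ j, ξ j ω * b.2 ^ (j : ℕ))} ≤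
            B.card * p ^ ((D : ℝ) - 2 * √(D : ℝ) - Module.finrank Qbar F)

/-- Statement (2). -/
def AlmostSurely : Prop :=
  ∀ (F : Submodule Qbar ℂ), Module.Finite Qbar F →
    ∀ (Ω : Type) (_ : MeasurableSpace Ω) (μ : Measure Ω), IsProbabilityMeasure μ →
      ∀ (p : ℝ) (ξ : ℕ → Ω → ℝ), 0 < p → p < 1 → Coefficients μ ξ p → ∀ κ : ℝ, κ < Real.log (1 / p) →
        (∀ᵐ ω ∂μ, ∀ᶠ D : ℕ in atTop, ∀ n : ℕ, 2 ≤ n → (n : ℝ) ≤ Real.exp (κ * D) →
          ¬ SomeAlgebraic F n (∑ j ∈ range (D + 1), ξ j ω * Real.pi ^ j) ∧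
            ¬ SomeAlgebraic F n (∑ j ∈ range (D + 1), ξ j ω * Real.exp 1 ^ j)) ∧
        ∀ (B : ℕ → Finset (ℝ × ℝ)) (C : ℝ),
          (∀ D, ∀ b ∈ B D, 0 < b.1 ∧ b.1 ≠ 1 ∧ Transcendental ℚ b.2) →
          (∀ D : ℕ, ((B D).card : ℝ) ≤ C * Real.exp (κ * D)) →
          ∀ᵐ ω ∂μ, ∀ᶠ D : ℕ in atTop, ∀ b ∈ B D,
            ¬ SomeAlgebraic F b.1 (∑ j ∈ range (D + 1), ξ j ω * b.2 ^ j)

/-- the numbers `π` and `e` -/
def piE : Fin 2 → ℝ := ![Real.pi, Real.exp 1]

/-- Statement (3). -/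
def TwoVariables : Prop :=
  ∀ (F : Submodule Qbar ℂ), Module.Finite Qbar F → ∀ D : ℕ, 1 ≤ D →
    D ≤ dimV (fun i => ((piE i : ℝ) : ℂ)) D ∧ dimV (fun i => ((piE i : ℝ) : ℂ)) D ≤ D ^ 2 ∧
    ∀ (Ω : Type) (_ : MeasurableSpace Ω) (μ : Measure Ω), IsProbabilityMeasure μ →
      ∀ (p : ℝ) (ξ : (Fin 2 → Fin D) → Ω → ℝ), 0 < p → p ≤ 1 → Coefficients μ ξ p → ∀ M : ℕ,
        μ.real {ω | ∃ n : ℕ, 2 ≤ n ∧ n ≤ M ∧
          SomeAlgebraic F n (∑ e, ξ e ω * ∏ i, piE i ^ (e i : ℕ))} ≤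
          M * p ^ ((dimV (fun i => ((piE i : ℝ) : ℂ)) D : ℝ) -
            17 * √(dimV (fun i => ((piE i : ℝ) : ℂ)) D : ℝ) - Module.finrank Qbar F)

/-- the pairs `(n, π)`, `(n, e)` -/
def pairs (M : ℕ) : Finset (ℝ × ℝ) :=
  (Finset.Icc 2 M).image (fun n : ℕ => ((n : ℝ), Real.pi)) ∪
    (Finset.Icc 2 M).image (fun n : ℕ => ((n : ℝ), Real.exp 1))

theorem pairs_good (M : ℕ) : ∀ b ∈ pairs M, 0 < b.1 ∧ b.1 ≠ 1 ∧ Transcendental ℚ b.2 := by
  have key : ∀ n : ℕ, 2 ≤ n → (0 : ℝ) < n ∧ (n : ℝ) ≠ 1 := by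
    intro n hn
    have h : (2 : ℝ) ≤ n := by exact_mod_cast hn
    exact ⟨by linarith, by linarith⟩
  intro b hb
  rw [pairs, Finset.mem_union, Finset.mem_image, Finset.mem_image] at hb
  rcases hb with ⟨n, hn, rfl⟩ | ⟨n, hn, rfl⟩
  · have h := key n (Finset.mem_Icc.1 hn).1
    exact ⟨h.1, h.2, Pool.Agent.H340R2.LW.transcendental_pi⟩
  · have h := key n (Finset.mem_Icc.1 hn).1
    exact ⟨h.1, h.2, Pool.Agent.H340R2.LW.transcendental_exp_one⟩

theorem pairs_card (M : ℕ) : (pairs M).card ≤ 2 * M := by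
  refine (Finset.card_union_le _ _).trans ?_
  have h1 : ((Finset.Icc 2 M).image (fun n : ℕ => ((n : ℝ), Real.pi))).card ≤ M :=
    Finset.card_image_le.trans (by rw [Nat.card_Icc]; omega)
  have h2 : ((Finset.Icc 2 M).image (fun n : ℕ => ((n : ℝ), Real.exp 1))).card ≤ M :=
    Finset.card_image_le.trans (by rw [Nat.card_Icc]; omega)
  omega

theorem mem_pairs_pi {n M : ℕ} (h2 : 2 ≤ n) (hM : n ≤ M) : ((n : ℝ), Real.pi) ∈ pairs M := by
  rw [pairs]
  exact Finset.mem_union_left _ (Finset.mem_image_of_mem (fun n : ℕ => ((n : ℝ), Real.pi))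
    (Finset.mem_Icc.2 ⟨h2, hM⟩))

theorem mem_pairs_e {n M : ℕ} (h2 : 2 ≤ n) (hM : n ≤ M) : ((n : ℝ), Real.exp 1) ∈ pairs M := by
  rw [pairs]
  exact Finset.mem_union_right _ (Finset.mem_image_of_mem (fun n : ℕ => ((n : ℝ), Real.exp 1))
    (Finset.mem_Icc.2 ⟨h2, hM⟩))

theorem probability : Probability := by
  intro F hF D Ω mΩ μ hμ p ξ hp0 hp1 h
  have key : ∀ B : Finset (ℝ × ℝ), (∀ b ∈ B, 0 < b.1 ∧ b.1 ≠ 1 ∧ Transcendental ℚ b.2) →
      μ.real {ω | ∃ b ∈ B, SomeAlgebraic F b.1 (∑ j, ξ j ω * b.2 ^ (j : ℕ))} ≤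
        B.card * p ^ ((D : ℝ) - 2 * √(D : ℝ) - Module.finrank Qbar F) := fun B hB =>
    Run7.h119.RX.prob_union_real F B hB D μ ξ h.measurable h.independent h.algebraic hp0 hp1 h.atoms
  refine ⟨fun M => ?_, key⟩
  have h1 := key (pairs M) (pairs_good M)
  refine le_trans (le_trans (measureReal_mono ?_) h1) ?_
  · rintro ω ⟨n, hn2, hnM, h2 | h2⟩
    · exact ⟨((n : ℝ), Real.pi), mem_pairs_pi hn2 hnM, h2⟩
    · exact ⟨((n : ℝ), Real.exp 1), mem_pairs_e hn2 hnM, h2⟩
  · refine mul_le_mul_of_nonneg_right ?_ (Real.rpow_nonneg hp0.le _)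
    exact_mod_cast pairs_card M

theorem almostSurely : AlmostSurely := by
  intro F hF Ω mΩ μ hμ p ξ hp0 hp1 h κ hκ
  have hκ' : κ < - Real.log p := by
    rw [one_div, Real.log_inv] at hκ
    exact hκ
  have key : ∀ (B : ℕ → Finset (ℝ × ℝ)) (C : ℝ),
      (∀ D, ∀ b ∈ B D, 0 < b.1 ∧ b.1 ≠ 1 ∧ Transcendental ℚ b.2) →
      (∀ D : ℕ, ((B D).card : ℝ) ≤ C * Real.exp (κ * D)) →
      ∀ᵐ ω ∂μ, ∀ᶠ D : ℕ in atTop, ∀ b ∈ B D,
        ¬ SomeAlgebraic F b.1 (∑ j ∈ range (D + 1), ξ j ω * b.2 ^ j) := by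
    intro B C hB hC
    have hC0 : 0 ≤ C := by
      have h1 := hC 0
      rw [Nat.cast_zero, mul_zero, Real.exp_zero, mul_one] at h1
      exact le_trans (Nat.cast_nonneg _) h1
    have h1 := Run7.h119.RX.ae_real F B hB μ ξ h.measurable h.independent h.algebraic hp0 hp1
      h.atoms C κ hC0 hκ' hC
    filter_upwards [h1] with ω hω
    filter_upwards [hω] with D hD b hb
    rintro ⟨f, hf, h2⟩
    exact hD b hb f hf h2
  refine ⟨?_, key⟩
  have h1 := key (fun D => pairs ⌊Real.exp (κ * D)⌋₊) 2 (fun D => pairs_good _) (by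
    intro D
    have h2 : ((pairs ⌊Real.exp (κ * D)⌋₊).card : ℝ) ≤ 2 * (⌊Real.exp (κ * D)⌋₊ : ℝ) := by
      exact_mod_cast pairs_card _
    have h3 : (⌊Real.exp (κ * D)⌋₊ : ℝ) ≤ Real.exp (κ * D) := Nat.floor_le (Real.exp_pos _).le
    linarith)
  filter_upwards [h1] with ω hω
  filter_upwards [hω] with D hD n hn2 hnM
  have hn : n ≤ ⌊Real.exp (κ * D)⌋₊ := Nat.le_floor hnM
  exact ⟨hD _ (mem_pairs_pi hn2 hn), hD _ (mem_pairs_e hn2 hn)⟩

theorem twoVariables : TwoVariables := by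
  intro F hF D hD
  refine ⟨?_, ?_, ?_⟩
  · exact Run7.h119.RX.le_box (fun i => ((piE i : ℝ) : ℂ)) 0 (by
      have : piE 0 = Real.pi := rfl
      rw [this]
      exact Pool.Agent.H340R2.LW.transcendental_pi_complex) D
  · have h1 := finrank_range_le_card (R := Qbar)
      (fun e : Fin 2 → Fin D => ∏ i, ((piE i : ℝ) : ℂ) ^ (e i : ℕ))
    rw [Fintype.card_fun, Fintype.card_fin, Fintype.card_fin] at h1
    exact h1
  · intro Ω mΩ μ hμ p ξ hp0 hp1 h M
    set q : ℝ := p ^ ((dimV (fun i => ((piE i : ℝ) : ℂ)) D : ℝ) -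
            17 * √(dimV (fun i => ((piE i : ℝ) : ℂ)) D : ℝ) - Module.finrank Qbar F) with hq
    have hone : ∀ n : ℕ, 2 ≤ n →
        μ.real {ω | SomeAlgebraic F n (∑ e, ξ e ω * ∏ i, piE i ^ (e i : ℕ))} ≤ q := by
      intro n hn
      have hn' : (2 : ℝ) ≤ n := by exact_mod_cast hn
      have h1 := Run7.h119.RX.prob_box_real F piE (a := (n : ℝ)) (by linarith) (by linarith) hD μ ξ
        h.measurable h.independent h.algebraic hp0 hp1 h.atoms
      refine h1.trans (le_of_eq ?_)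
      rw [hq]
      congr 1
      norm_num
      rfl
    have hset : {ω | ∃ n : ℕ, 2 ≤ n ∧ n ≤ M ∧
          SomeAlgebraic F n (∑ e, ξ e ω * ∏ i, piE i ^ (e i : ℕ))} ⊆
        ⋃ n ∈ Finset.Icc 2 M, {ω | SomeAlgebraic F n (∑ e, ξ e ω * ∏ i, piE i ^ (e i : ℕ))} := by
      rintro ω ⟨n, h2, hM, h3⟩
      rw [Set.mem_iUnion₂]
      exact ⟨n, Finset.mem_Icc.2 ⟨h2, hM⟩, h3⟩
    refine (measureReal_mono hset (measure_ne_top μ _)).trans
      ((measureReal_biUnion_finset_le _ _).trans ?_)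
    calc ∑ n ∈ Finset.Icc 2 M,
          μ.real {ω | SomeAlgebraic F n (∑ e, ξ e ω * ∏ i, piE i ^ (e i : ℕ))}
        ≤ ∑ _n ∈ Finset.Icc 2 M, q :=
          Finset.sum_le_sum fun n hn => hone n (Finset.mem_Icc.1 hn).1
      _ = ((Finset.Icc 2 M).card : ℝ) * q := by rw [Finset.sum_const, nsmul_eq_mul]
      _ ≤ M * q := by
          refine mul_le_mul_of_nonneg_right ?_ (Real.rpow_nonneg hp0.le _)
          have : (Finset.Icc 2 M).card ≤ M := by
            rw [Nat.card_Icc]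
            omega
          exact_mod_cast this

/-- **Main result.** -/
theorem result : Probability ∧ AlmostSurely ∧ TwoVariables :=
  ⟨probability, almostSurely, twoVariables⟩

end Pool.Agent.Results.MP_ee2255_nt.RandomExponents
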