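import Mathlib
import Pool.Agent.Run7.h360.CF.Line

/-!
# The continued fractions and the digits of `n^π` and `n^e`, uniformly in `n`

Question Q1 asks if some number `n^π` or `n^e`, `n ≥ 2` an integer, is rational.  Let `x` be `π` or `e`.  We
compare, uniformly in `n`, the descriptions of the numbers `x^i (n^x)^j`, for integers `i, j`, at every scale.

Let `y = [a_0; a_1, a_2, …]` be the regular continued fraction of a real number, `q_i` the denominators
of its convergents.  The places `u+1, …, v` are *copied at the price `N`* if, with the exception of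
places up to some `s` with `q_s ≤ e^N q_u`, the partial quotients `a_i` at these places are equal to
the partial quotients `a_{i-d}` for one `d > 0` (`Copied`; the copied part may begin at any earlier
place and may overlap its copy, so that all periodic stretches with a short period are included).  A
number `y` is *simple up to the scale `X` with the parameters `r, K, N`* (`Simple`) if

* after the removal of at most `K` places all stretches of the partial quotients `a_{i+1}` with
  `q_i ≤ e^X` are copied at the price `N`; or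
* for some base `b`, after the removal of at most `K` places all stretches `u+1, …, v ≤ L` of the
  digits, `X ≤ L log b`, are terms of sequences whose power series satisfy modulo `t^(v+1)` an algebraic
  equation of degree `≤ r` with coefficients of degree `≤ k + r u`, `(k+1) log b ≤ N`; or
* the fractional part `z` of `y` satisfies `|P(z)| ≤ e^(-X)` for an integer polynomial `P ≠ 0` of degree
  `≤ r` with coefficients `≤ e^N`.

So `K` is the number of the breaks, `N` the price of the description and `X` the length.  We prove: for all `n ≥ 2`, all points `(i, j)`, `(k, l)` which are not proportional,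
`|i|, |j|, |k|, |l| ≤ D`, and all Möbius images `y`, `y'` (with integral coefficients of height `≤ H`) of
`x^i n^(jx)` and `x^k n^(lx)` which are simple up to `X` with `K`, `K'` breaks at the prices `N`, `N'`

`X ≤ A^(K+K'+1) (N + N' + log n + log H + 1)`,

where `A` depends only on `D` and `r`, and not on `n`, `H` and the Möbius transformations.  So at every scale
`X`, for every `n` with `log n` smaller than `X / A`, the points `(i, j)` for which `x^i n^(jx)` is simple (for
instance with few periodic stretches in the continued fraction, or in the expansion in some base) are on one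
line; and if `n^x` is a fraction with numerator and denominator `≤ M`, then all `x^i n^(jx)`, `i ≠ 0`, are
complicated at all scales `X` greater than `A (log M + log n + 1)`.

Proof.  A copy at the places `s+1, …, v` of the continued fraction gives the quadratic polynomial
`(q_{r-1} X - p_{r-1}) (q_s X - p_s) - (q_{s-1} X - p_{s-1}) (q_r X - p_r)`, whose value at `y` is, up to the
sign, not changed by a common letter and so at most `2 / q_v`; its leading coefficient is not zero.  The
breaks of the descriptions divide the interval `[0, X]` of scales into few intervals, and on each of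
them all the numbers have integer polynomials with small coefficients and a very small value
(`Pool.Agent.Run7.h360.CF`).  Möbius images transform these polynomials.  The numbers `u = x^i n^(jx)` and
`v = x^k n^(lx)` satisfy the relation `u^l v^(-j) = x^(il-jk)`, which does not contain `n`; numbers which
satisfy a relation over `ℤ[x]` have a joint measure, uniformly in the relation (helper168,
`Run7.h168.Uni.jointH_rel`), which comes from the transcendence measure of `x`.  The continued fractions and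
the uniformity in `n` are new.
-/

set_option autoImplicit false

namespace Pool.Agent.Results.MP_ee2255_nt.SimpleMonomialsUniformInN

open Polynomial

/-- the partial quotient `a_{i+1}` of `y = [a_0; a_1, a_2, …]` (`none` if the continued fraction has ended) -/
noncomputable def letter (y : ℝ) (i : ℕ) : Option ℝ := (GenContFract.of y).partDens.get? i

/-- the denominator `q_i` of `[a_0; a_1, …, a_i]` (the last denominator if the continued fraction has
ended) -/
noncomputable def den (y : ℝ) (i : ℕ) : ℝ := (GenContFract.of y).dens i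

/-- the places `u+1, …, v` are copied at the price `N`: up to the place `s`, `q_s ≤ e^N q_u`, they are
arbitrary, and from then on the partial quotients are equal to those `s - r` places before -/
def Copied (y : ℝ) (N : ℝ) (u v : ℕ) : Prop :=
  ∃ r s, r < s ∧ den y s ≤ Real.exp N * den y u ∧ ∀ i, s ≤ i → i < v → letter y i = letter y (i - (s - r))

/-- the partial quotients `a_{i+1}` with `q_i ≤ e^X` are copied at the price `N` on all stretches which
contain none of at most `K` places -/
def Pieces (y : ℝ) (K : ℕ) (N X : ℝ) : Prop :=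
  ∃ T : Finset ℕ, T.card ≤ K ∧ ∀ u v, u < v → den y (v - 1) ≤ Real.exp X → (∀ t ∈ T, t ≤ u ∨ v < t) →
    Copied y N u v

/-- the `i`-th digit of `y` after the point in base `b` -/
noncomputable def digit (b : ℕ) (y : ℝ) (i : ℕ) : ℤ := ⌊y * (b : ℝ) ^ i⌋ % (b : ℤ)

/-- the polynomial `s_1 X + s_2 X^2 + ⋯ + s_L X^L` -/
noncomputable def seqPoly (s : ℕ → ℤ) (L : ℕ) : ℚ[X] := ∑ l ∈ Finset.Icc 1 L, C (s l : ℚ) * X ^ l

/-- there is a nonzero polynomial `P(X, Y)` over `ℚ` of degree `≤ r` in `Y` and `≤ k` in `X` such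
that `P(X, S(X))` is divisible by `X^(L+1)`, where `S` is the polynomial of the first `L` terms
of `s` -/
def AlgRelation (s : ℕ → ℤ) (r L k : ℕ) : Prop :=
  ∃ P : ℚ[X][X], P ≠ 0 ∧ P.natDegree ≤ r ∧ (∀ j, (P.coeff j).natDegree ≤ k) ∧
    X ^ (L + 1) ∣ P.eval (seqPoly s L)

/-- the digits of `y` at the places `u+1, …, v` are the terms at these places of a sequence `s` of base `b`
digits, and the first `v` terms of `s` satisfy an algebraic relation of degree `≤ r` with coefficients of
degree `≤ k + r u` -/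
def Described (b : ℕ) (y : ℝ) (r k u v : ℕ) : Prop :=
  ∃ s : ℕ → ℤ, (∀ l, 0 ≤ s l ∧ s l < b) ∧ (∀ l, u < l → l ≤ v → s l = digit b y l) ∧
    AlgRelation s r v (k + r * u)

/-- the first `L` digits of `y` are described on all stretches which contain none of at most `K` places -/
def PieceByPiece (b : ℕ) (y : ℝ) (r K L k : ℕ) : Prop :=
  ∃ T : Finset ℕ, T.card ≤ K ∧
    ∀ u v, u ≤ v → v ≤ L → (∀ t ∈ T, t ≤ u ∨ v < t) → Described b y r k u v

/-- the fractional part of `y` almost satisfies an algebraic equation -/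
def NearAlg (r : ℕ) (N X y : ℝ) : Prop :=
  ∃ P : ℤ[X], P ≠ 0 ∧ P.natDegree ≤ r ∧ (∀ i, |((P.coeff i : ℤ) : ℝ)| ≤ Real.exp N) ∧
    |(aeval (Int.fract y) P : ℝ)| ≤ Real.exp (-X)

/-- `y` is simple up to the scale `X`, with `K` breaks and at the price `N` -/
def Simple (r K : ℕ) (N X y : ℝ) : Prop :=
  Pieces y K N X ∨
    (∃ b k L : ℕ, 2 ≤ b ∧ (k + 1) * Real.log b ≤ N ∧ X ≤ L * Real.log b ∧ PieceByPiece b y r K L k) ∨
    NearAlg r N X y

/-- `y` is the image of `w` under a Möbius transformation with integral coefficients of height `≤ H`, and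
`|y| ≤ H` -/
def Image (H w y : ℝ) : Prop :=
  |y| ≤ H ∧ ∃ a b c d : ℤ, a * d - b * c ≠ 0 ∧ |(a : ℝ)| ≤ H ∧ |(b : ℝ)| ≤ H ∧ |(c : ℝ)| ≤ H ∧ |(d : ℝ)| ≤ H ∧
    y * (c * w + d) = a * w + b

/-- Let `x` be `π` or `e`.

**(1)** For all `D`, `r` there is `A ≥ 1` such that for all integers `n ≥ 2`, all integral points `(i, j)` and
`(k, l)` with coordinates `≤ D` which are not proportional, and all Möbius images `y`, `y'` of height `≤ H` of
`x^i (n^x)^j` and of `x^k (n^x)^l` which are simple up to `X` with `K`, `K'` breaks at the prices `N`, `N'`,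
`X ≤ A^(K+K'+1) (N + N' + log n + log H + 1)`.

**(2)** For all `D`, `r ≥ 1` there is `A ≥ 1` such that for all integers `n ≥ 2`: if `n^x = p/q` is rational,
`1 ≤ q ≤ M`, then for all `|i|, |j| ≤ D`, `i ≠ 0`, and all Möbius images `y` of height `≤ H` of
`x^i (n^x)^j` which are simple up to `X` with `K` breaks at the price `N`,
`X ≤ A^(K+1) (N + log M + log n + log H + 1)`. -/
theorem result (x : ℝ) (hx : x = Real.pi ∨ x = Real.exp 1) :
    (∀ D r : ℕ, ∃ A : ℝ, 1 ≤ A ∧ ∀ n : ℕ, 2 ≤ n →
      ∀ i j k l : ℤ, |i| ≤ D → |j| ≤ D → |k| ≤ D → |l| ≤ D → i * l - j * k ≠ 0 →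
      ∀ (H y y' : ℝ) (K K' : ℕ) (N N' X : ℝ), 1 ≤ H → Image H (x ^ i * ((n : ℝ) ^ x) ^ j) y →
        Image H (x ^ k * ((n : ℝ) ^ x) ^ l) y' → 0 ≤ N → 0 ≤ N' → Simple r K N X y → Simple r K' N' X y' →
        X ≤ A ^ (K + K' + 1) * (N + N' + Real.log n + Real.log H + 1)) ∧
    ∀ D r : ℕ, 1 ≤ r → ∃ A : ℝ, 1 ≤ A ∧ ∀ n : ℕ, 2 ≤ n →
      ∀ (p q : ℤ) (M : ℝ), 1 ≤ q → (q : ℝ) ≤ M → (n : ℝ) ^ x = p / q →
      ∀ i j : ℤ, |i| ≤ D → |j| ≤ D → i ≠ 0 → ∀ (H y : ℝ) (K : ℕ) (N X : ℝ), 1 ≤ H →
        Image H (x ^ i * ((n : ℝ) ^ x) ^ j) y → 0 ≤ N → Simple r K N X y →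
        X ≤ A ^ (K + 1) * (N + Real.log M + Real.log n + Real.log H + 1) := by
  have hm : Pool.Agent.TH456.TM.MeasT (x : ℂ) := by
    rcases hx with rfl | rfl
    · exact Pool.Agent.R473.JC.measT_three _ (Or.inr (Or.inl rfl))
    · exact Pool.Agent.R473.JC.measT_three _ (Or.inl rfl)
  have hx4 : x ≤ 4 := by
    rcases hx with rfl | rfl
    · exact Real.pi_le_four
    · have := Real.exp_one_lt_d9
      linarith
  have hx0 : 0 ≤ x := by
    rcases hx with rfl | rfl
    · exact Real.pi_pos.le
    · exact (Real.exp_pos 1).le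
  have himg : ∀ H H' w y : ℝ, H ≤ H' → Image H w y → Image H' w y := by
    rintro H H' w y hHH' ⟨h2, a, b, c, d, h3, h4, h5, h6, h7, h8⟩
    exact ⟨h2.trans hHH', a, b, c, d, h3, h4.trans hHH', h5.trans hHH', h6.trans hHH', h7.trans hHH', h8⟩
  have key : ∀ D r : ℕ, ∃ A : ℝ, 1 ≤ A ∧ ∀ n : ℕ, 2 ≤ n →
      ∀ i j k l : ℤ, |i| ≤ D → |j| ≤ D → |k| ≤ D → |l| ≤ D → i * l - j * k ≠ 0 →
      ∀ (H y y' : ℝ) (K K' : ℕ) (N N' X : ℝ), 1 ≤ H → Image H (x ^ i * ((n : ℝ) ^ x) ^ j) y →
        Image H (x ^ k * ((n : ℝ) ^ x) ^ l) y' → 0 ≤ N → 0 ≤ N' → Simple r K N X y → Simple r K' N' X y' →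
        X ≤ A ^ (K + K' + 1) * (N + N' + Real.log n + Real.log H + 1) := by
    intro D r
    obtain ⟨A, hA, h⟩ := Run7.h360.CF.simple_line_unif x hm D r
    refine ⟨4 * A, by linarith, ?_⟩
    intro n hn i j k l hi hj hk hl hd H y y' K K' N N' X hH hy hy' hN hN' hs hs'
    have hn1 : (1 : ℝ) ≤ n := by exact_mod_cast (by omega : 1 ≤ n)
    have hn0 : (0 : ℝ) < n := by linarith
    have hz1 : 1 ≤ (n : ℝ) ^ x := Real.one_le_rpow hn1 hx0
    have hz4 : (n : ℝ) ^ x ≤ (n : ℝ) ^ (4 : ℕ) := by
      rw [← Real.rpow_natCast]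
      exact Real.rpow_le_rpow_of_exponent_le hn1 (by push_cast; exact hx4)
    have hn4 : (1 : ℝ) ≤ (n : ℝ) ^ (4 : ℕ) := one_le_pow₀ hn1
    obtain ⟨H', hH'⟩ : ∃ H' : ℝ, H' = H * (n : ℝ) ^ (4 : ℕ) := ⟨_, rfl⟩
    have hHH' : H ≤ H' := by rw [hH']; exact le_mul_of_one_le_right (by linarith) hn4
    have habs : |(n : ℝ) ^ x| = (n : ℝ) ^ x := abs_of_pos (by linarith)
    have hz4' : (n : ℝ) ^ (4 : ℕ) ≤ H' := by rw [hH']; exact le_mul_of_one_le_left (by linarith) hH
    have h1 := h ((n : ℝ) ^ x) H' (hH.trans hHH')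
      (by rw [habs]; exact one_le_mul_of_one_le_of_one_le (hH.trans hHH') hz1)
      (by rw [habs]; exact hz4.trans hz4') i j k l hi hj hk hl hd y y' K K' N N' X
      (himg _ _ _ _ hHH' hy) (himg _ _ _ _ hHH' hy') hN hN' hs hs'
    refine h1.trans ?_
    have hlog : Real.log H' = Real.log H + 4 * Real.log n := by
      rw [hH', Real.log_mul (by linarith) (by linarith), Real.log_pow]
      push_cast
      ring
    have hlH : 0 ≤ Real.log H := Real.log_nonneg hH
    have hln : 0 ≤ Real.log n := Real.log_nonneg hn1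
    rw [hlog]
    have h4 : (4 : ℝ) * A ^ (K + K' + 1) ≤ (4 * A) ^ (K + K' + 1) := by
      rw [mul_pow]
      exact mul_le_mul_of_nonneg_right (le_self_pow₀ (by norm_num) (by omega)) (by positivity)
    calc A ^ (K + K' + 1) * (N + N' + (Real.log H + 4 * Real.log n) + 1)
        ≤ A ^ (K + K' + 1) * (4 * (N + N' + Real.log n + Real.log H + 1)) :=
          mul_le_mul_of_nonneg_left (by linarith) (by positivity)
      _ = 4 * A ^ (K + K' + 1) * (N + N' + Real.log n + Real.log H + 1) := by ring
      _ ≤ _ := mul_le_mul_of_nonneg_right h4 (by linarith)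
  refine ⟨key, ?_⟩
  intro D r hr
  obtain ⟨A, hA, h⟩ := key (D + 1) r
  refine ⟨5 * A, by linarith, ?_⟩
  intro n hn p q M hq hqM hpq i j hi hj hi0 H y K N X hH hy hN hs
  have hD : ((D : ℕ) : ℤ) ≤ ((D + 1 : ℕ) : ℤ) := by push_cast; omega
  have hn1 : (1 : ℝ) ≤ n := by exact_mod_cast (by omega : 1 ≤ n)
  have hq1 : (1 : ℝ) ≤ q := by exact_mod_cast hq
  have hM1 : 1 ≤ M := hq1.trans hqM
  have hz1 : 1 ≤ (n : ℝ) ^ x := Real.one_le_rpow hn1 hx0
  have hz4 : (n : ℝ) ^ x ≤ (n : ℝ) ^ (4 : ℕ) := by
    rw [← Real.rpow_natCast]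
    exact Real.rpow_le_rpow_of_exponent_le hn1 (by push_cast; exact hx4)
  have hn4 : (1 : ℝ) ≤ (n : ℝ) ^ (4 : ℕ) := one_le_pow₀ hn1
  obtain ⟨H', hH'⟩ : ∃ H' : ℝ, H' = H * (n : ℝ) ^ (4 : ℕ) := ⟨_, rfl⟩
  have hHH' : H ≤ H' := by rw [hH']; exact le_mul_of_one_le_right (by linarith) hn4
  have h1H' : 1 ≤ H' := hH.trans hHH'
  have hz4' : (n : ℝ) ^ (4 : ℕ) ≤ H' := by rw [hH']; exact le_mul_of_one_le_left (by linarith) hH
  have hid : Image H' (x ^ (0 : ℤ) * ((n : ℝ) ^ x) ^ (1 : ℤ)) ((n : ℝ) ^ x) := by
    refine ⟨?_, 1, 0, 0, 1, by norm_num, ?_, ?_, ?_, ?_, ?_⟩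
    · rw [abs_of_pos (by linarith)]; exact hz4.trans hz4'
    · push_cast; rw [abs_one]; linarith
    · push_cast; rw [abs_zero]; linarith
    · push_cast; rw [abs_zero]; linarith
    · push_cast; rw [abs_one]; linarith
    · push_cast
      rw [zpow_zero, zpow_one, one_mul]
      ring
  have hsr : Simple r 0 (Real.log M) X ((n : ℝ) ^ x) := by
    rw [hpq]
    exact Run7.h360.CF.simple_of_rat p q hq M hqM r hr 0 X
  have hlM : 0 ≤ Real.log M := Real.log_nonneg hM1
  have h9 := h n hn i j 0 1 (hi.trans hD) (hj.trans hD) (by rw [abs_zero]; positivity)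
    (by rw [abs_one]; push_cast; omega) (by rw [mul_one, mul_zero, sub_zero]; exact hi0) H' y _ K 0 N
    (Real.log M) X h1H' (himg _ _ _ _ hHH' hy) hid hN hlM hs hsr
  refine h9.trans ?_
  have hlog : Real.log H' = Real.log H + 4 * Real.log n := by
    rw [hH', Real.log_mul (by linarith) (by linarith), Real.log_pow]
    push_cast
    ring
  have hlH : 0 ≤ Real.log H := Real.log_nonneg hH
  have hln : 0 ≤ Real.log n := Real.log_nonneg hn1
  rw [hlog, add_zero]
  have h4 : (5 : ℝ) * A ^ (K + 1) ≤ (5 * A) ^ (K + 1) := by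
    rw [mul_pow]
    exact mul_le_mul_of_nonneg_right (le_self_pow₀ (by norm_num) (by omega)) (by positivity)
  calc A ^ (K + 1) * (N + Real.log M + Real.log n + (Real.log H + 4 * Real.log n) + 1)
      ≤ A ^ (K + 1) * (5 * (N + Real.log M + Real.log n + Real.log H + 1)) :=
        mul_le_mul_of_nonneg_left (by linarith) (by positivity)
    _ = 5 * A ^ (K + 1) * (N + Real.log M + Real.log n + Real.log H + 1) := by ring
    _ ≤ _ := mul_le_mul_of_nonneg_right h4 (by linarith)

end Pool.Agent.Results.MP_ee2255_nt.SimpleMonomialsUniformInN
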